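import Pool.Agent.H611D.Final

set_option autoImplicit false

open H611D

namespace Pool.Agent.Results.MP_8b3477_lc.DoublingChains

/-- Let `A` be a chain such that every chain `X` strictly below `A` has `X + X` strictly below `A`,
and let `A = B + C`.
1. If `A` embeds neither in `B` nor in `C`, then `B`, `C` are incomparable, `B + B ≤ B`,
`C + C ≤ C`, the chains strictly below `B` are the chains strictly below `C`, every chain strictly
below `A` embeds in `B` or in `C`, the chains strictly below `B` are closed under countable ordered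
sums, `ℚ` embeds in `A` and `A` is uncountable.
2. If `A` is scattered or countable, then `A` embeds in `B` or in `C`. -/
theorem result (A : Type) [LinearOrder A]
    (hA : ∀ (X : Type) [LinearOrder X],
      Nonempty (X ↪o A) → IsEmpty (A ↪o X) →
        (Nonempty (Lex (X ⊕ X) ↪o A) ∧ IsEmpty (A ↪o Lex (X ⊕ X))))
    (B C : Type) [LinearOrder B] [LinearOrder C] (e : Nonempty (A ≃o Lex (B ⊕ C))) :
    (IsEmpty (A ↪o B) → IsEmpty (A ↪o C) →
      IsEmpty (B ↪o C) ∧ IsEmpty (C ↪o B) ∧
      Nonempty (Lex (B ⊕ B) ↪o B) ∧ Nonempty (Lex (C ⊕ C) ↪o C) ∧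
      (∀ (X : Type) [LinearOrder X],
        (Nonempty (X ↪o B) ∧ IsEmpty (B ↪o X)) ↔ (Nonempty (X ↪o C) ∧ IsEmpty (C ↪o X))) ∧
      (∀ (X : Type) [LinearOrder X],
        Nonempty (X ↪o A) → IsEmpty (A ↪o X) → Nonempty (X ↪o B) ∨ Nonempty (X ↪o C)) ∧
      (∀ (I : Type) [LinearOrder I] [Countable I] (X : I → Type) [∀ i, LinearOrder (X i)],
        (∀ i, Nonempty (X i ↪o B) ∧ IsEmpty (B ↪o X i)) →
          Nonempty ((Σₗ i, X i) ↪o B) ∧ IsEmpty (B ↪o (Σₗ i, X i))) ∧
      Nonempty (ℚ ↪o A) ∧ Uncountable A) ∧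
    (IsEmpty (ℚ ↪o A) ∨ Countable A → Nonempty (A ↪o B) ∨ Nonempty (A ↪o C)) := by
  have hA' : ∀ (X : Type) [LinearOrder X], Lt X A → Lt (Lex (X ⊕ X)) A := by
    intro X _ hX
    rw [lt_iff] at hX ⊢
    exact hA X hX.1 hX.2
  obtain ⟨e⟩ := e
  have key : IsEmpty (A ↪o B) → IsEmpty (A ↪o C) → Bad A B C := by
    intro h1 h2
    refine main A hA' B C e ?_ ?_
    · rw [le_iff, not_nonempty_iff]; exact h1
    · rw [le_iff, not_nonempty_iff]; exact h2
  refine ⟨fun h1 h2 => ?_, fun h => ?_⟩
  · have b := key h1 h2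
    refine ⟨?_, ?_, ?_, ?_, ?_, ?_, ?_, ?_, b.unc⟩
    · have := b.notBC; rwa [le_iff, not_nonempty_iff] at this
    · have := b.notCB; rwa [le_iff, not_nonempty_iff] at this
    · exact (le_iff _ _).1 b.BB
    · exact (le_iff _ _).1 b.CC
    · intro X _
      have := b.cone X
      rwa [lt_iff, lt_iff] at this
    · intro X _ hX1 hX2
      have := b.cover X ((lt_iff X A).2 ⟨hX1, hX2⟩)
      rwa [le_iff, le_iff] at this
    · intro I _ _ X _ hX
      exact (lt_iff _ _).1 (b.sums I X fun i => (lt_iff _ _).2 (hX i))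
    · exact (le_iff _ _).1 b.rat
  · by_contra hcon
    push Not at hcon
    have b := key hcon.1 hcon.2
    rcases h with h | h
    · exact h.false ((le_iff _ _).1 b.rat).some
    · have := b.unc
      exact not_countable_iff.2 b.unc h

end Pool.Agent.Results.MP_8b3477_lc.DoublingChains
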